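import Pool.Agent.W78.EG.Defs
import Pool.Agent.W78.GA.Basic

/-!
Project EG (helper78), part BIJ: the pairs in the cones (S_BIJ).
A port of `W714/EC/Bij` to the orders `Qd t c`.
-/

set_option autoImplicit false

namespace Pool.Agent.W371.EG

open Finset Filter
open Pool.Agent.W78.GA
open Pool.Agent.W78.EG

variable {t c : ℤ}

/-- decomposition with respect to a basis of determinant one -/
lemma decomp {a b : Qd t c} (h : dt a b = 1) (z : Qd t c) :
    z.re = dt z b * a.re + dt a z * b.re ∧ z.im = dt z b * a.im + dt a z * b.im := by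
  unfold dt at *
  constructor
  · linear_combination (-z.re) * h
  · linear_combination (-z.im) * h

lemma ineq {m n A B C : ℤ} (hm : 0 < m) (hn : 0 < n) (hA : 0 ≤ A) (hB : 0 ≤ B) (hcA : -A < C)
    (hcB : -B < C) : A + B + C ≤ m ^ 2 * A + n ^ 2 * B + m * n * C := by
  have hmn : 1 ≤ m * n := Int.add_one_le_iff.2 (mul_pos hm hn)
  have hm2 : 1 ≤ m ^ 2 := Int.add_one_le_iff.2 (pow_pos hm 2)
  have hn2 : 1 ≤ n ^ 2 := Int.add_one_le_iff.2 (pow_pos hn 2)
  have hq : 0 ≤ m ^ 2 + n ^ 2 - 1 - m * n := by nlinarith [sq_nonneg (m - n)]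
  rcases le_total A B with hAB | hAB
  · have t1 : (n ^ 2 - 1) * A ≤ (n ^ 2 - 1) * B := mul_le_mul_of_nonneg_left hAB (by linarith)
    have t2 : (m * n - 1) * (-A) ≤ (m * n - 1) * C :=
      mul_le_mul_of_nonneg_left hcA.le (by linarith)
    have t3 : 0 ≤ (m ^ 2 + n ^ 2 - 1 - m * n) * A := mul_nonneg hq hA
    linarith
  · have t1 : (m ^ 2 - 1) * B ≤ (m ^ 2 - 1) * A := mul_le_mul_of_nonneg_left hAB (by linarith)
    have t2 : (m * n - 1) * (-B) ≤ (m * n - 1) * C :=
      mul_le_mul_of_nonneg_left hcB.le (by linarith)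
    have t3 : 0 ≤ (m ^ 2 + n ^ 2 - 1 - m * n) * B := mul_nonneg hq hB
    linarith

/-- vectors strictly inside the cone over an edge have large norm -/
lemma nm_inside (hD : t ^ 2 < 4 * c) {a b z : Qd t c} {Y : ℝ} (h : dt a b = 1)
    (ha : (nm a : ℝ) ≤ Y) (hb : (nm b : ℝ) ≤ Y)
    (hab : Y < (nm (a + b) : ℝ)) (h1 : 0 < dt a z) (h2 : 0 < dt z b) : Y < (nm z : ℝ) := by
  refine lt_of_lt_of_le hab ?_
  have key : (nm (a + b) : ℤ) ≤ nm z := by
    obtain ⟨e1, e2⟩ := decomp h z
    set m := dt z b with hm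
    set n := dt a z with hn
    set A : ℤ := (nm a : ℤ) with hA
    set B : ℤ := (nm b : ℤ) with hB
    set C : ℤ := 2 * a.re * b.re + t * (a.re * b.im + a.im * b.re) + 2 * c * a.im * b.im with hC
    have eA : A = a.re ^ 2 + t * a.re * a.im + c * a.im ^ 2 := nm_cast hD a
    have eB : B = b.re ^ 2 + t * b.re * b.im + c * b.im ^ 2 := nm_cast hD b
    have hz : (nm z : ℤ) = m ^ 2 * A + n ^ 2 * B + m * n * C := by
      rw [nm_cast hD, e1, e2, eA, eB, hC]; ring
    have hs : (nm (a + b) : ℤ) = A + B + C := by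
      rw [nm_cast hD, eA, eB, hC]
      simp only [QuadraticAlgebra.re_add, QuadraticAlgebra.im_add]
      ring
    have hsA : A < A + B + C := by
      rw [← hs]
      have h3 : (nm a : ℝ) < nm (a + b) := lt_of_le_of_lt ha hab
      have h4 : nm a < nm (a + b) := by exact_mod_cast h3
      rw [hA]
      exact_mod_cast h4
    have hsB : B < A + B + C := by
      rw [← hs]
      have h3 : (nm b : ℝ) < nm (a + b) := lt_of_le_of_lt hb hab
      have h4 : nm b < nm (a + b) := by exact_mod_cast h3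
      rw [hB]
      exact_mod_cast h4
    have hA0 : 0 ≤ A := by rw [hA]; positivity
    have hB0 : 0 ≤ B := by rw [hB]; positivity
    rw [hz, hs]
    exact ineq h2 h1 hA0 hB0 (by linarith) (by linarith)
  exact_mod_cast key

/-- two primitive vectors with determinant zero are equal up to sign -/
lemma par_eq {a b : Qd t c} (ha : prim a) (hb : prim b) (h : dt a b = 0) : b = a ∨ b = -a := by
  unfold prim at ha hb
  have ha' : IsCoprime a.re a.im := Int.isCoprime_iff_gcd_eq_one.2 ha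
  have hb' : IsCoprime b.re b.im := Int.isCoprime_iff_gcd_eq_one.2 hb
  obtain ⟨x, y, hxy⟩ := ha'
  obtain ⟨x', y', hxy'⟩ := hb'
  -- b = k a with k = x b.re + y b.im
  set k := x * b.re + y * b.im with hk
  unfold dt at h
  have e1 : b.re = k * a.re := by
    rw [hk]; linear_combination (-b.re) * hxy - y * h
  have e2 : b.im = k * a.im := by
    rw [hk]; linear_combination (-b.im) * hxy + x * h
  have hu : k * (x' * a.re + y' * a.im) = 1 := by
    calc k * (x' * a.re + y' * a.im) = x' * (k * a.re) + y' * (k * a.im) := by ring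
      _ = x' * b.re + y' * b.im := by rw [← e1, ← e2]
      _ = 1 := hxy'
  have hk1 : k = 1 ∨ k = -1 := Int.isUnit_iff.1 (IsUnit.of_mul_eq_one _ hu)
  rcases hk1 with h1 | h1
  · left
    apply QuadraticAlgebra.ext
    · rw [e1, h1, one_mul]
    · rw [e2, h1, one_mul]
  · right
    apply QuadraticAlgebra.ext
    · rw [e1, h1, QuadraticAlgebra.re_neg]; ring
    · rw [e2, h1, QuadraticAlgebra.im_neg]; ring

lemma mem_cone (hD : t ^ 2 < 4 * c) {X : ℝ} {a b z : Qd t c} :
    z ∈ cone X a b ↔ (prim z ∧ (nm z : ℝ) ≤ X) ∧ 0 < dt a z ∧ 0 < dt z b := by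
  unfold cone
  rw [mem_filter, mem_pball hD]

lemma mem_edge (hD : t ^ 2 < 4 * c) {Y : ℝ} {e : Qd t c × Qd t c} : e ∈ edge t c Y ↔
    ((prim e.1 ∧ (nm e.1 : ℝ) ≤ Y) ∧ (prim e.2 ∧ (nm e.2 : ℝ) ≤ Y)) ∧ dt e.1 e.2 = 1 ∧
      Y < (nm (e.1 + e.2) : ℝ) := by
  unfold edge
  rw [mem_filter, mem_product, mem_pball hD, mem_pball hD]

lemma dt_swap (a b : Qd t c) : dt a b = -dt b a := by unfold dt; ring

lemma dt_le_aux (hD : t ^ 2 < 4 * c) {Y : ℝ} {e g : Qd t c × Qd t c} (he : e ∈ edge t c Y)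
    (hg : g ∈ edge t c Y) {z : Qd t c}
    (h1 : 0 < dt e.1 z) (h2 : 0 < dt z e.2) (h3 : 0 < dt g.1 z) (h4 : 0 < dt z g.2) :
    dt e.1 g.1 ≤ 0 ∧ dt g.2 e.2 ≤ 0 := by
  rw [mem_edge hD] at he hg
  obtain ⟨⟨⟨pa, na⟩, ⟨pb, nb⟩⟩, hab, hY⟩ := he
  obtain ⟨⟨⟨pa', na'⟩, ⟨pb', nb'⟩⟩, hab', hY'⟩ := hg
  obtain ⟨e1, e2⟩ := decomp hab z
  constructor
  · by_contra hc
    push Not at hc
    have h5 : dt g.1 z = dt z e.2 * dt g.1 e.1 + dt e.1 z * dt g.1 e.2 := by
      unfold dt at *
      linear_combination (g.1.re * z.im - g.1.im * z.re) * (-hab)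
    rw [dt_swap g.1 e.1] at h5
    have h6 : 0 < dt g.1 e.2 := by
      by_contra h7
      push Not at h7
      nlinarith [mul_pos h2 hc, mul_nonneg h1.le (by linarith : 0 ≤ -dt g.1 e.2)]
    have := nm_inside hD hab na nb hY hc h6
    linarith
  · by_contra hc
    push Not at hc
    have h5 : dt z g.2 = dt z e.2 * dt e.1 g.2 + dt e.1 z * dt e.2 g.2 := by
      unfold dt at *
      linear_combination (z.re * g.2.im - z.im * g.2.re) * (-hab)
    rw [dt_swap e.2 g.2] at h5
    have h6 : 0 < dt e.1 g.2 := by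
      by_contra h7
      push Not at h7
      nlinarith [mul_pos h1 hc, mul_nonneg h2.le (by linarith : 0 ≤ -dt e.1 g.2)]
    have := nm_inside hD hab na nb hY h6 hc
    linarith

/-- the cones over different edges are disjoint -/
lemma edge_unique (hD : t ^ 2 < 4 * c) {Y : ℝ} {e g : Qd t c × Qd t c} (he : e ∈ edge t c Y)
    (hg : g ∈ edge t c Y) {z : Qd t c}
    (h1 : 0 < dt e.1 z) (h2 : 0 < dt z e.2) (h3 : 0 < dt g.1 z) (h4 : 0 < dt z g.2) : e = g := by
  obtain ⟨k1, k2⟩ := dt_le_aux hD he hg h1 h2 h3 h4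
  obtain ⟨k3, k4⟩ := dt_le_aux hD hg he h3 h4 h1 h2
  rw [mem_edge hD] at he hg
  have z1 : dt e.1 g.1 = 0 := by rw [dt_swap] at k3; linarith
  have z2 : dt e.2 g.2 = 0 := by rw [dt_swap] at k2; linarith
  apply Prod.ext
  · rcases par_eq he.1.1.1 hg.1.1.1 z1 with h | h
    · exact h.symm
    · exfalso
      rw [h] at h3
      have : dt (-e.1) z = -dt e.1 z := by unfold dt; simp; ring
      linarith
  · rcases par_eq he.1.2.1 hg.1.2.1 z2 with h | h
    · exact h.symm
    · exfalso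
      rw [h] at h4
      have : dt z (-e.2) = -dt z e.2 := by unfold dt; simp; ring
      linarith

/-- determinants are multiplied by the norm -/
lemma dt_mul (hD : t ^ 2 < 4 * c) (q v w : Qd t c) : dt (q * v) (q * w) = nm q * dt v w := by
  rw [nm_cast hD]
  unfold dt
  simp only [QuadraticAlgebra.re_mul, QuadraticAlgebra.im_mul]
  ring

/-- the quotient by `q` -/
def qd (p : ℕ) (q z : Qd t c) : Qd t c := ⟨ip q z / (p : ℤ), dt q z / (p : ℤ)⟩

lemma qd_mul (hD : t ^ 2 < 4 * c) {p : ℕ} (hp : p ≠ 0) {q : Qd t c} (hq : nm q = p) (z : Qd t c) :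
    qd p q (q * z) = z := by
  have hp' : (p : ℤ) ≠ 0 := by exact_mod_cast hp
  have hn : (p : ℤ) = q.re ^ 2 + t * q.re * q.im + c * q.im ^ 2 := by rw [← hq, nm_cast hD]
  unfold qd
  apply QuadraticAlgebra.ext
  · have : ip q (q * z) = p * z.re := by
      rw [hn]; unfold ip
      simp only [QuadraticAlgebra.re_mul, QuadraticAlgebra.im_mul]
      ring
    simp only [this]
    exact Int.mul_ediv_cancel_left _ hp'
  · have : dt q (q * z) = p * z.im := by
      rw [hn]; unfold dt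
      simp only [QuadraticAlgebra.re_mul, QuadraticAlgebra.im_mul]
      ring
    simp only [this]
    exact Int.mul_ediv_cancel_left _ hp'

lemma mul_qd (hD : t ^ 2 < 4 * c) {p : ℕ} (hp : p ≠ 0) {q z : Qd t c} {r : ℤ} (hq : nm q = p)
    (hlq : lat p r q) (hr : (p : ℤ) ∣ r ^ 2 - t * r + c) (hz : lat p r z) :
    q * qd p q z = z := by
  have hp' : (p : ℤ) ≠ 0 := by exact_mod_cast hp
  have hn : (p : ℤ) = q.re ^ 2 + t * q.re * q.im + c * q.im ^ 2 := by rw [← hq, nm_cast hD]
  unfold lat at hlq hz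
  have d1 : (p : ℤ) ∣ dt q z := by
    have : dt q z = (q.re + r * q.im) * z.im - q.im * (z.re + r * z.im) := by unfold dt; ring
    rw [this]
    exact dvd_sub (hlq.mul_right _) (hz.mul_left _)
  have d2 : (p : ℤ) ∣ ip q z := by
    have : ip q z = (q.re + r * q.im) * z.re + (t - r) * q.im * (z.re + r * z.im) +
        q.im * z.im * (r ^ 2 - t * r + c) := by unfold ip; ring
    rw [this]
    exact dvd_add (dvd_add (hlq.mul_right _) (hz.mul_left _)) (hr.mul_left _)
  obtain ⟨s, hs⟩ := d1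
  obtain ⟨u, hu⟩ := d2
  have e1 : qd p q z = ⟨u, s⟩ := by
    unfold qd
    rw [hs, hu, Int.mul_ediv_cancel_left _ hp', Int.mul_ediv_cancel_left _ hp']
  rw [e1]
  unfold dt at hs
  unfold ip at hu
  apply QuadraticAlgebra.ext
  · apply mul_left_cancel₀ hp'
    simp only [QuadraticAlgebra.re_mul]
    linear_combination (-q.re) * hu + c * q.im * hs - z.re * (hn)
  · apply mul_left_cancel₀ hp'
    simp only [QuadraticAlgebra.im_mul]
    linear_combination (-q.im) * hu - (q.re + t * q.im) * hs - z.im * (hn)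

lemma lat_of_dt {p : ℕ} (hp : p.Prime) {r : ℤ} {v w : Qd t c} (hv : prim v) (hl : lat p r v)
    (hd : (p : ℤ) ∣ dt v w) : lat p r w := by
  have hp' : Prime (p : ℤ) := Nat.prime_iff_prime_int.1 hp
  unfold lat at *
  have h1 : (p : ℤ) ∣ v.im * (w.re + r * w.im) := by
    have : v.im * (w.re + r * w.im) = (v.re + r * v.im) * w.im - dt v w := by unfold dt; ring
    rw [this]
    exact dvd_sub (hl.mul_right _) hd
  rcases hp'.dvd_or_dvd h1 with h | h
  · exfalso
    have h2 : (p : ℤ) ∣ v.re := by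
      have : v.re = (v.re + r * v.im) - r * v.im := by ring
      rw [this]
      exact dvd_sub hl (h.mul_left _)
    have h3 : (p : ℤ) ∣ (Int.gcd v.re v.im : ℤ) := Int.dvd_coe_gcd h2 h
    rw [show Int.gcd v.re v.im = 1 from hv] at h3
    have : p ∣ 1 := by exact_mod_cast h3
    exact hp.one_lt.ne' (Nat.dvd_one.1 this)
  · exact h

theorem bij {f : ℕ} {χ : DirichletCharacter ℂ f} (hF : Fd t c f χ) : S_BIJ t c χ := by
  classical
  have hD : t ^ 2 < 4 * c := by
    have h1 := hF.disc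
    have h2 := hF.three
    have h3 : (3 : ℤ) ≤ f := by exact_mod_cast h2
    linarith
  intro K κ Q X p π r u v hK hκ hQ hX hpQ hπ hlπ hr
  have hp : p.Prime := by
    unfold PQ at hpQ
    rw [mem_filter] at hpQ
    exact hpQ.2.1
  have hp0 : p ≠ 0 := hp.ne_zero
  have hpR : (0 : ℝ) < p := by exact_mod_cast hp.pos
  -- left side as a sum over a sigma type
  have hL : ∑ e ∈ good t c K κ Q X, ∑ v' ∈ cone X e.1 e.2, ∑ w' ∈ cone X e.1 e.2,
      (if dt v' w' = p ∧ lat p r v' then u v' * v w' else 0) =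
      ∑ s ∈ ((good t c K κ Q X).sigma (fun e => cone X e.1 e.2 ×ˢ cone X e.1 e.2)).filter
        (fun s => dt s.2.1 s.2.2 = p ∧ lat p r s.2.1), u s.2.1 * v s.2.2 := by
    rw [sum_filter, sum_sigma]
    refine sum_congr rfl fun e _ => ?_
    rw [sum_product]
  rw [hL]
  refine sum_nbij (fun s => (qd p π s.2.1, qd p π s.2.2)) ?_ ?_ ?_ ?_
  · -- maps to
    rintro ⟨e, v', w'⟩ hs
    rw [mem_filter, mem_sigma, mem_product] at hs
    obtain ⟨⟨he, hv, hw⟩, hdt, hl⟩ := hs
    simp only at he hv hw hdt hl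
    have hv1 := (mem_cone hD).1 hv
    have hw1 := (mem_cone hD).1 hw
    have hlw : lat p r w' := lat_of_dt hp hv1.1.1 hl (by rw [hdt])
    have ev := mul_qd hD hp0 hπ hlπ hr hl
    have ew := mul_qd hD hp0 hπ hlπ hr hlw
    rw [mem_filter]
    refine ⟨?_, e, he, ?_, ?_⟩
    · unfold dedge
      rw [mem_filter, mem_product, mem_pball hD, mem_pball hD]
      refine ⟨⟨⟨?_, ?_⟩, ⟨?_, ?_⟩⟩, ?_⟩
      · exact prim_of_dvd (u := v') hv1.1.1 ⟨π, by rw [mul_comm]; exact ev.symm⟩
      · rw [le_div_iff₀ hpR]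
        have : nm v' = p * nm (qd p π v') := by rw [← hπ, ← nm_mul, hπ, ev]
        have h2 := hv1.1.2
        rw [this] at h2
        push_cast at h2
        linarith
      · exact prim_of_dvd (u := w') hw1.1.1 ⟨π, by rw [mul_comm]; exact ew.symm⟩
      · rw [le_div_iff₀ hpR]
        have : nm w' = p * nm (qd p π w') := by rw [← hπ, ← nm_mul, hπ, ew]
        have h2 := hw1.1.2
        rw [this] at h2
        push_cast at h2
        linarith
      · have h3 : dt (π * qd p π v') (π * qd p π w') = nm π * dt (qd p π v') (qd p π w') :=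
          dt_mul hD _ _ _
        rw [ev, ew, hdt, hπ] at h3
        have hp' : (p : ℤ) ≠ 0 := by exact_mod_cast hp0
        have h4 : (p : ℤ) * 1 = p * dt (qd p π v') (qd p π w') := by rw [mul_one]; exact h3
        exact (mul_left_cancel₀ hp' h4).symm
    · simp only [ev]; exact hv
    · simp only [ew]; exact hw
  · -- injective
    rintro ⟨e, v', w'⟩ hs ⟨e2, v2, w2⟩ hs2 heq
    rw [mem_coe, mem_filter, mem_sigma, mem_product] at hs hs2
    obtain ⟨⟨he, hv, hw⟩, hdt, hl⟩ := hs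
    obtain ⟨⟨he2, hv2, hw2⟩, hdt2, hl2⟩ := hs2
    simp only at he hv hw hdt hl he2 hv2 hw2 hdt2 hl2
    have hv1 := (mem_cone hD).1 hv
    have hv21 := (mem_cone hD).1 hv2
    have hlw : lat p r w' := lat_of_dt hp hv1.1.1 hl (by rw [hdt])
    have hlw2 : lat p r w2 := lat_of_dt hp hv21.1.1 hl2 (by rw [hdt2])
    simp only [Prod.mk.injEq] at heq
    have e1 : v' = v2 := by
      rw [← mul_qd hD hp0 hπ hlπ hr hl, ← mul_qd hD hp0 hπ hlπ hr hl2, heq.1]
    have e2' : w' = w2 := by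
      rw [← mul_qd hD hp0 hπ hlπ hr hlw, ← mul_qd hD hp0 hπ hlπ hr hlw2, heq.2]
    subst e1 e2'
    have he' : e ∈ edge t c (X / (K * Q)) := by
      unfold good at he; exact (mem_filter.1 he).1
    have he2' : e2 ∈ edge t c (X / (K * Q)) := by
      unfold good at he2; exact (mem_filter.1 he2).1
    have := edge_unique hD he' he2' hv1.2.1 hv1.2.2 hv21.2.1 hv21.2.2
    subst this
    rfl
  · -- surjective
    rintro ⟨a, b⟩ hab
    rw [mem_coe, mem_filter] at hab
    obtain ⟨hd, g, hg, hga, hgb⟩ := hab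
    unfold dedge at hd
    rw [mem_filter] at hd
    refine ⟨⟨g, (π * a, π * b)⟩, ?_, ?_⟩
    · rw [mem_coe, mem_filter, mem_sigma, mem_product]
      refine ⟨⟨hg, hga, hgb⟩, ?_, ?_⟩
      · simp only
        have h1 : dt a b = 1 := hd.2
        rw [dt_mul hD, hπ, h1, mul_one]
      · simp only
        exact lat_mul_left hr a hlπ
    · simp only
      rw [qd_mul hD hp0 hπ, qd_mul hD hp0 hπ]
  · rintro ⟨e, v', w'⟩ hs
    rw [mem_filter, mem_sigma, mem_product] at hs
    obtain ⟨⟨he, hv, hw⟩, hdt, hl⟩ := hs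
    simp only at he hv hw hdt hl
    have hv1 := (mem_cone hD).1 hv
    have hlw : lat p r w' := lat_of_dt hp hv1.1.1 hl (by rw [hdt])
    simp only
    rw [mul_qd hD hp0 hπ hlπ hr hl, mul_qd hD hp0 hπ hlπ hr hlw]

end Pool.Agent.W371.EG
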